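import Pool.Agent.U745.DS.Zeta
import Pool.Agent.U745.QB.Inst
import Pool.Agent.H370R2.DirGood

/-!
# Primitive Dirichlet L-functions: the data at a point
-/

set_option autoImplicit false

namespace Pool.Agent.U745.DC

open Filter Topology Complex
open Pool.Agent.U745.DS
open Pool.Agent.U745.LT (Leading leading_iff)

variable {q : ℕ} [NeZero q] {χ : DirichletCharacter ℂ q}

/-- the parameters -/
noncomputable abbrev al (χ : DirichletCharacter ℂ q) : Nat.Primes → Fin 1 → ℂ := fun p _ => χ (p : ℕ)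

theorem q_one (hχ : χ.IsPrimitive) (h : χ = 1) : q = 1 := by
  have h1 : χ.conductor = q := hχ
  rw [h, DirichletCharacter.conductor_one] at h1
  exact h1.symm

theorem mero (hχ : χ.IsPrimitive) (s : ℂ) : MeromorphicAt χ.LFunction s := by
  by_cases h : χ = 1
  · have hq := q_one hχ h
    subst hq
    rw [DirichletCharacter.LFunction_modOne_eq]
    exact Pool.Agent.TH958.An.zeta_mero s
  · exact ((DirichletCharacter.differentiable_LFunction h).analyticAt s).meromorphicAt

theorem an {s : ℂ} (hs : s = 1 → χ ≠ 1) : AnalyticAt ℂ χ.LFunction s := by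
  by_cases h : χ = 1
  · have hs1 : s ≠ 1 := fun h1 => hs h1 h
    have h2 : DifferentiableOn ℂ χ.LFunction ({1}ᶜ : Set ℂ) := fun z hz =>
      (DirichletCharacter.differentiableAt_LFunction χ z (Or.inl hz)).differentiableWithinAt
    exact h2.analyticAt (isOpen_compl_singleton.mem_nhds hs1)
  · exact (DirichletCharacter.differentiable_LFunction h).analyticAt s

theorem half (hχ : χ.IsPrimitive) (σ₀ : ℝ) :
    Half (G.plam Z.qp) (G.pco (al χ)) σ₀ (0 + 1) χ.LFunction :=
  G.half_nf (wt := 0) Z.norms_p (fun v j => by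
    have h1 : ‖χ ((v : ℕ) : ZMod q)‖ ≤ 1 := χ.norm_le_one _
    rw [Real.rpow_zero]
    exact h1) (fun s _ => mero hχ s) (fun s hs => by
    have hs' : 1 < s.re := by linarith
    rw [DirichletCharacter.LFunction_eq_LSeries χ hs',
      ← DirichletCharacter.LSeries_eulerProduct_tprod χ hs']
    unfold G.EPr
    refine tprod_congr fun p => ?_
    simp [Z.qp])

theorem ser (hχ : χ.IsPrimitive) (s₀ : ℂ) :
    Ser (G.plam Z.qp) (sh (G.plam Z.qp) (G.pco (al χ)) s₀) (max (0 + 1 - s₀.re) 0)
      (fun s => χ.LFunction (s₀ + s)) := (half hχ s₀.re).at le_rfl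

theorem order_ne_top (hχ : χ.IsPrimitive) (s : ℂ) : meromorphicOrderAt χ.LFunction s ≠ ⊤ := by
  have h1 := (ser hχ s).ne_top (s := 0) (by simp)
  rw [order_shift, add_zero] at h1
  exact h1

theorem order_eq (hχ : χ.IsPrimitive) {s : ℂ} (hs : s = 1 → χ ≠ 1) :
    meromorphicOrderAt χ.LFunction s =
      ((analyticOrderNatAt χ.LFunction s : ℤ) : WithTop ℤ) := by
  have h1 := (an hs).meromorphicOrderAt_eq
  have h2 := order_ne_top hχ s
  have h3 : analyticOrderAt χ.LFunction s ≠ ⊤ := by
    intro h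
    rw [h1, h] at h2
    exact h2 rfl
  rw [h1, ← Nat.cast_analyticOrderNatAt h3]
  rfl

theorem order_zero_iff (hχ : χ.IsPrimitive) (s : ℂ) : meromorphicOrderAt χ.LFunction s = 0 ↔
    (s = 1 → χ ≠ 1) ∧ χ.LFunction s ≠ 0 := by
  by_cases h : χ = 1
  · have hq := q_one hχ h
    subst hq
    rw [DirichletCharacter.LFunction_modOne_eq, Z.order_zero_iff]
    constructor
    · rintro ⟨h1, h2⟩
      exact ⟨fun h3 => absurd h3 h1, h2⟩
    · rintro ⟨h1, h2⟩
      exact ⟨fun h3 => h1 h3 h, h2⟩
  · rw [Pool.Agent.U745.QB.order_zero_iff (DirichletCharacter.differentiable_LFunction h)]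
    constructor
    · intro h1
      exact ⟨fun _ => h, h1⟩
    · exact fun h1 => h1.2

end Pool.Agent.U745.DC
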